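import Pool.Agent.Y947.GP.Tr
import Pool.Agent.Helper881.CenPgl

/-!
The converse: if `C(P)` is generated by `Aut(P)` and one function `R`, then `Aut(P)` is normal in
`G_P` with a cyclic quotient, and `deg P` is the power `[G_P : Aut(P)]` of `deg R`.
-/

set_option autoImplicit false

open Polynomial

namespace Pool.Agent.Y947.GP

open Pool.Agent.Helper881.Gp Pool.Agent.Helper881.Cen Pool.Agent.Helper881.Cen.Hom

/-- `K` is normal in `G` with a cyclic quotient, and `K` embeds in `PGL₂(ℂ)`. -/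
def Good (G : Type) [Group G] (K : Subgroup G) : Prop :=
  ∃ _ : K.Normal, IsCyclic (G ⧸ K) ∧
    ∃ f : K →* Matrix.ProjGenLinGroup (Fin 2) ℂ, Function.Injective f

theorem converse_deg (G : Type) [Group G] [Finite G] (K : Subgroup G) (P R : RatFunc ℂ)
    (hP : 2 ≤ deg P) (hgen : GeneratedBy P R) (hreal : Realizes P G K) :
    Good G K ∧ 2 ≤ deg R ∧ deg P = deg R ^ K.index := by
  classical
  obtain ⟨π, rfl⟩ := exists_end P (by omega)
  obtain ⟨ρ, rfl⟩ := exists_end R hgen.1.1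
  obtain ⟨hRmem, hset⟩ := hgen
  obtain ⟨q, q1, q2, q3, q4⟩ := hreal
  have hmem := mem_cent π
  have hρ : ρ * π = π * ρ := (hmem ρ).1 hRmem
  -- the version of `q` on substitutions
  set Q : (RatFunc ℂ →ₐ[ℂ] RatFunc ℂ) → G := fun σ => (q (σ RatFunc.X))⁻¹ with hQ
  have hmul : ∀ σ τ : RatFunc ℂ →ₐ[ℂ] RatFunc ℂ, σ * π = π * σ → τ * π = π * τ →
      Q (σ * τ) = Q σ * Q τ := by
    intro σ τ hσ hτ
    have h := q1 (τ RatFunc.X) ((hmem τ).2 hτ) (σ RatFunc.X) ((hmem σ).2 hσ)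
    rw [comp_hom] at h
    show (q ((σ * τ) RatFunc.X))⁻¹ = (q (σ RatFunc.X))⁻¹ * (q (τ RatFunc.X))⁻¹
    rw [← mul_inv_rev, ← h]
    rfl
  have hsurj : ∀ g : G, ∃ σ : RatFunc ℂ →ₐ[ℂ] RatFunc ℂ, σ * π = π * σ ∧ Q σ = g := by
    intro g
    obtain ⟨F, hF, hq⟩ := q2 g⁻¹
    obtain ⟨σ, hσ⟩ := exists_end F hF.1
    refine ⟨σ, (hmem σ).1 (by rw [hσ]; exact hF), ?_⟩
    show (q (σ RatFunc.X))⁻¹ = g
    rw [hσ, hq, inv_inv]
  have hK : ∀ σ : RatFunc ℂ →ₐ[ℂ] RatFunc ℂ, σ * π = π * σ → deg (σ RatFunc.X) = 1 →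
      Q σ ∈ K := by
    intro σ hσ h1
    exact K.inv_mem (q4.mapsTo (⟨(hmem σ).2 hσ, h1⟩ : σ RatFunc.X ∈ AutP (π RatFunc.X)))
  have hKs : ∀ k : K, ∃ σ : RatFunc ℂ →ₐ[ℂ] RatFunc ℂ, σ * π = π * σ ∧ deg (σ RatFunc.X) = 1 ∧
      Q σ = k := by
    intro k
    obtain ⟨F, hF, hq⟩ := q4.surjOn (K.inv_mem k.2 : ((k : G)⁻¹) ∈ (K : Set G))
    obtain ⟨σ, hσ⟩ := exists_end F hF.1.1
    refine ⟨σ, (hmem σ).1 (by rw [hσ]; exact hF.1), by rw [hσ]; exact hF.2, ?_⟩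
    show (q (σ RatFunc.X))⁻¹ = k
    rw [hσ, hq, inv_inv]
  have hinj : ∀ σ τ : RatFunc ℂ →ₐ[ℂ] RatFunc ℂ, σ * π = π * σ → τ * π = π * τ →
      deg (σ RatFunc.X) = 1 → deg (τ RatFunc.X) = 1 → Q σ = Q τ → σ = τ := by
    intro σ τ hσ hτ h1 h2 h
    have h' : q (σ RatFunc.X) = q (τ RatFunc.X) := inv_injective h
    exact hom_ext _ _ (q4.injOn ⟨(hmem σ).2 hσ, h1⟩ ⟨(hmem τ).2 hτ, h2⟩ h')
  have hgen' : ∀ σ : RatFunc ℂ →ₐ[ℂ] RatFunc ℂ, σ * π = π * σ →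
      ∃ (m : RatFunc ℂ →ₐ[ℂ] RatFunc ℂ) (j : ℕ), m * π = π * m ∧ deg (m RatFunc.X) = 1 ∧
        σ = m * ρ ^ j := by
    intro σ hσ
    have h := (hmem σ).2 hσ
    rw [hset] at h
    obtain ⟨μ, hμ, j, hj⟩ := h
    obtain ⟨m, rfl⟩ := exists_end μ hμ.1.1
    refine ⟨m, j, (hmem m).1 hμ.1, hμ.2, hom_ext _ _ ?_⟩
    rw [hj, iter_hom, comp_hom]
    rfl
  have hdm : ∀ σ τ : RatFunc ℂ →ₐ[ℂ] RatFunc ℂ,
      deg ((σ * τ) RatFunc.X) = deg (σ RatFunc.X) * deg (τ RatFunc.X) :=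
    fun σ τ => deg_hom σ (τ RatFunc.X)
  have hd1 : deg ((1 : RatFunc ℂ →ₐ[ℂ] RatFunc ℂ) RatFunc.X) = 1 := by
    have h1 := hdm 1 1
    rw [mul_one] at h1
    have h2 := one_le_deg (1 : RatFunc ℂ →ₐ[ℂ] RatFunc ℂ)
    nlinarith
  have hdpow : ∀ (σ : RatFunc ℂ →ₐ[ℂ] RatFunc ℂ) (j : ℕ),
      deg ((σ ^ j) RatFunc.X) = deg (σ RatFunc.X) ^ j := by
    intro σ j
    induction j with
    | zero => rw [pow_zero, pow_zero, hd1]
    | succ j ih => rw [pow_succ, pow_succ, hdm, ih]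
  have hρj : ∀ j : ℕ, ρ ^ j * π = π * ρ ^ j := by
    intro j
    exact ((show Commute ρ π from hρ).pow_left j)
  -- the degree of `R` is at least two
  have hρ2 : 2 ≤ deg (ρ RatFunc.X) := by
    obtain ⟨m, j, -, hm1, hj⟩ := hgen' π rfl
    by_contra hcon
    have h1 : deg (ρ RatFunc.X) = 1 := by
      have := one_le_deg ρ
      omega
    rw [hj, hdm, hm1, hdpow, h1, one_pow, mul_one] at hP
    omega
  have hQ1 : Q 1 = 1 := by
    have h := hmul 1 1 (by rw [one_mul, mul_one]) (by rw [one_mul, mul_one])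
    rw [mul_one] at h
    exact (mul_eq_left.1 h.symm)
  set r : G := Q ρ with hr
  have hQpow : ∀ j : ℕ, Q (ρ ^ j) = r ^ j := by
    intro j
    induction j with
    | zero => rw [pow_zero, pow_zero, hQ1]
    | succ j ih => rw [pow_succ, hmul _ _ (hρj j) hρ, ih, pow_succ]
  have hrep : ∀ g : G, ∃ (k : K) (j : ℕ), g = k * r ^ j := by
    intro g
    obtain ⟨σ, hσ, rfl⟩ := hsurj g
    obtain ⟨m, j, hm, hm1, rfl⟩ := hgen' σ hσ
    exact ⟨⟨Q m, hK m hm hm1⟩, j, by rw [hmul _ _ hm (hρj j), hQpow]⟩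
  have hconj : ∀ k ∈ K, r * k * r⁻¹ ∈ K := by
    intro k hk
    obtain ⟨m, hm, hm1, hmk⟩ := hKs ⟨k, hk⟩
    have hc : (ρ * m) * π = π * (ρ * m) :=
      (show Commute ρ π from hρ).mul_left (show Commute m π from hm)
    obtain ⟨m', j, hm', hm'1, h⟩ := hgen' (ρ * m) hc
    have hdeg := congrArg (fun s : RatFunc ℂ →ₐ[ℂ] RatFunc ℂ => deg (s RatFunc.X)) h
    simp only [hdm, hdpow, hm1, hm'1, mul_one, one_mul] at hdeg
    have hj : j = 1 := by
      have h2 : deg (ρ RatFunc.X) ^ 1 = deg (ρ RatFunc.X) ^ j := by rw [pow_one]; exact hdeg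
      exact (Nat.pow_right_injective hρ2 h2).symm
    rw [hj, pow_one] at h
    have h3 := congrArg Q h
    rw [hmul _ _ hρ hm, hmul _ _ hm' hρ] at h3
    have h4 : r * k * r⁻¹ = Q m' := by
      have hmk' : Q m = k := hmk
      rw [hmk'] at h3
      rw [h3, mul_assoc, mul_inv_cancel, mul_one]
    rw [h4]
    exact hK m' hm' hm'1
  have hconjj : ∀ (j : ℕ), ∀ k ∈ K, r ^ j * k * (r ^ j)⁻¹ ∈ K := by
    intro j
    induction j with
    | zero => intro k hk; simpa using hk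
    | succ j ih =>
      intro k hk
      have h := hconj _ (ih k hk)
      have e : r ^ (j + 1) * k * (r ^ (j + 1))⁻¹ = r * (r ^ j * k * (r ^ j)⁻¹) * r⁻¹ := by
        rw [pow_succ']
        group
      rw [e]
      exact h
  have hN : K.Normal := by
    constructor
    intro n hn g
    obtain ⟨k, j, rfl⟩ := hrep g
    have e : (k : G) * r ^ j * n * ((k : G) * r ^ j)⁻¹ =
        (k : G) * (r ^ j * n * (r ^ j)⁻¹) * (k : G)⁻¹ := by group
    rw [e]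
    exact K.mul_mem (K.mul_mem k.2 (hconjj j n hn)) (K.inv_mem k.2)
  have hzp : ∀ x : G ⧸ K, x ∈ Subgroup.zpowers (r : G ⧸ K) := by
    intro x
    obtain ⟨g, rfl⟩ := QuotientGroup.mk_surjective x
    obtain ⟨k, j, hg⟩ := hrep g
    rw [hg, QuotientGroup.mk_mul, (QuotientGroup.eq_one_iff (k : G)).2 k.2, one_mul,
      QuotientGroup.mk_pow]
    exact Subgroup.npow_mem_zpowers _ _
  -- the classes of the iterates
  have hsim : ∀ σ τ : RatFunc ℂ →ₐ[ℂ] RatFunc ℂ, σ * π = π * σ → τ * π = π * τ →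
      (Q σ = Q τ ↔ ∃ l₁ l₂ : ℕ, π ^ l₁ * σ = π ^ l₂ * τ) := by
    intro σ τ hσ hτ
    rw [← sim_iff, ← q3 _ ((hmem σ).2 hσ) _ ((hmem τ).2 hτ)]
    exact inv_inj
  have hone : (1 : RatFunc ℂ →ₐ[ℂ] RatFunc ℂ) * π = π * 1 := by rw [one_mul, mul_one]
  have hdegP : deg (π RatFunc.X) = deg (ρ RatFunc.X) ^ K.index := by
    obtain ⟨m, j, hm, hm1, hj⟩ := hgen' π rfl
    have hdj : deg (π RatFunc.X) = deg (ρ RatFunc.X) ^ j := by
      conv_lhs => rw [hj]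
      rw [hdm, hm1, hdpow, one_mul]
    have hQπ : Q π = 1 := by
      rw [← hQ1, hsim π 1 rfl hone]
      exact ⟨0, 1, by rw [pow_zero, one_mul, pow_one, mul_one]⟩
    have hidx : K.index = orderOf (r : G ⧸ K) := by
      rw [Subgroup.index_eq_card]
      exact (orderOf_eq_card_of_forall_mem_zpowers hzp).symm
    have hdvd : K.index ∣ j := by
      rw [hidx, orderOf_dvd_iff_pow_eq_one, ← QuotientGroup.mk_pow, QuotientGroup.eq_one_iff]
      have h1 : Q m * r ^ j = 1 := by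
        rw [← hQpow, ← hmul _ _ hm (hρj j), ← hj, hQπ]
      have h2 : r ^ j = (Q m)⁻¹ := eq_inv_of_mul_eq_one_right h1
      rw [h2]
      exact K.inv_mem (hK m hm hm1)
    have hdvd' : j ∣ K.index := by
      have h1 : r ^ K.index ∈ K := by
        rw [← QuotientGroup.eq_one_iff, QuotientGroup.mk_pow, hidx, pow_orderOf_eq_one]
      obtain ⟨m', hm', hm'1, hq'⟩ := hKs ⟨_, h1⟩
      have h2 : Q (ρ ^ K.index) = Q m' := by rw [hQpow, hq']
      obtain ⟨l₁, l₂, h3⟩ := (hsim _ _ (hρj _) hm').1 h2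
      have h4 := congrArg (fun s : RatFunc ℂ →ₐ[ℂ] RatFunc ℂ => deg (s RatFunc.X)) h3
      simp only [hdm, hdpow, hm'1, mul_one, hdj] at h4
      rw [← pow_mul, ← pow_mul, ← pow_add] at h4
      have h5 : j * l₁ + K.index = j * l₂ := Nat.pow_right_injective hρ2 h4
      exact (Nat.dvd_add_right ⟨l₁, rfl⟩).1 ⟨l₂, h5⟩
    rw [hdj, Nat.dvd_antisymm hdvd' hdvd]
  refine ⟨⟨hN, ⟨⟨(r : G ⧸ K), hzp⟩⟩, ?_⟩, hρ2, hdegP⟩
  · obtain ⟨e⟩ := Pgl.pgl_equiv
    choose s hs1 hs2 hs3 using hKs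
    choose t ht using fun k => moebius_of_deg_one (s k) (hs2 k)
    have hst : ∀ k l : K, s (k * l) = s k * s l := by
      intro k l
      apply hinj _ _ (hs1 _)
        ((show Commute (s k) π from hs1 k).mul_left (show Commute (s l) π from hs1 l)) (hs2 _)
      · rw [hdm, hs2, hs2]
      · rw [hmul _ _ (hs1 k) (hs1 l), hs3, hs3, hs3, Subgroup.coe_mul]
    let F : K →* (RatFunc ℂ ≃ₐ[ℂ] RatFunc ℂ) := MonoidHom.mk' t (by
      intro k l
      apply AlgEquiv.ext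
      intro f
      show t (k * l) f = t k (t l f)
      rw [← ht, hst, ← ht, ← ht]
      rfl)
    refine ⟨e.symm.toMonoidHom.comp F, ?_⟩
    intro k l hkl
    have h1 : t k = t l := e.symm.injective hkl
    have h2 : s k = s l := by
      apply AlgHom.ext
      intro f
      rw [ht, ht, h1]
    apply Subtype.ext
    rw [← hs3 k, ← hs3 l, h2]

end Pool.Agent.Y947.GP
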