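import Pool.Agent.Helper881.CenExists

/-!
The construction of `Pool.Agent.Helper881.Cen.Exists.exists_R` with an arbitrarily large degree.
-/

set_option autoImplicit false

open Polynomial

namespace Pool.Agent.Y947.GP

open Pool.Agent.Helper881.Cen Pool.Agent.Helper881.Cen.Exists
open Pool.Agent.Helper881.Cen.Count Pool.Agent.Helper881.Cen.Rigid Pool.Agent.Helper881.Cen.Fixed
open Pool.Agent.Helper881.Cen.Zeros
open Pool.Agent.Helper881.Gp

theorem exists_R_large (N : ℕ) (K : Type) [Group K] [Finite K] (ρ : K →* (RatFunc ℂ ≃ₐ[ℂ] RatFunc ℂ))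
    (hρ : Function.Injective ρ) (φ : K ≃* K) :
    ∃ R : RatFunc ℂ →ₐ[ℂ] RatFunc ℂ, N ≤ rdeg (R RatFunc.X) ∧ 2 ≤ rdeg (R RatFunc.X) ∧
      (∀ (k : K) (f : RatFunc ℂ), ρ k (R f) = R (ρ (φ k) f)) ∧
      (∀ A A' : RatFunc ℂ →ₐ[ℂ] RatFunc ℂ, A (R RatFunc.X) = A' (R RatFunc.X) → A = A') ∧
      (∀ A B S : RatFunc ℂ →ₐ[ℂ] RatFunc ℂ, 2 ≤ rdeg (S RatFunc.X) →
        A (R RatFunc.X) = B (S RatFunc.X) →
        ∃ T : RatFunc ℂ →ₐ[ℂ] RatFunc ℂ, S RatFunc.X = T (R RatFunc.X)) ∧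
      (∀ μ ν : RatFunc ℂ →ₐ[ℂ] RatFunc ℂ, rdeg (μ RatFunc.X) = 1 → rdeg (ν RatFunc.X) = 1 →
        R (μ RatFunc.X) = ν (R RatFunc.X) → ∃ k : K, ∀ f, ν f = ρ k f) ∧
      ∃ Z : Finset ℂ, 8 ≤ Z.card ∧ ∀ a ∈ Z, GoodPt (R RatFunc.X).num (R RatFunc.X).denom a := by
  classical
  obtain ⟨τ, hτ⟩ := Twist.exists_twisted K ρ hρ φ
  obtain ⟨ψ₁, ψ₂, hcop, hlt, hfix, hgal, hgen⟩ := exists_psi K ρ hρ
  obtain ⟨D, hD⟩ := Halley.exists_ddx
  set R₁ : RatFunc ℂ := τ RatFunc.X with hR₁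
  have hψ₂ : ψ₂ ≠ 0 := by
    intro h0
    rw [h0, isCoprime_zero_right] at hcop
    have := natDegree_eq_zero_of_isUnit hcop
    omega
  set ψ : RatFunc ℂ := algebraMap ℂ[X] (RatFunc ℂ) ψ₁ / algebraMap ℂ[X] (RatFunc ℂ) ψ₂ with hψ
  have hψdeg : rdeg ψ = ψ₁.natDegree := by
    rw [hψ, rdeg_div ψ₁ ψ₂ hcop hψ₂]
    omega
  have hκ : 1 ≤ ψ₁.natDegree := by omega
  have hR₁deg : 1 ≤ rdeg R₁ := Hom.one_le_deg τ
  have hR₁cop := RatFunc.isCoprime_num_denom R₁
  have hstab : ∀ k : K, ρ k R₁ = R₁ → k = 1 := by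
    intro k hk
    rw [hR₁, hτ] at hk
    have h1 : ρ (φ k) RatFunc.X = RatFunc.X := τ.toRingHom.injective hk
    have h2 : ρ (φ k) = 1 := by
      apply AlgEquiv.ext
      intro f
      have := Hom.hom_ext (ρ (φ k)).toAlgHom (AlgHom.id ℂ (RatFunc ℂ)) h1
      exact DFunLike.congr_fun this f
    have h3 : φ k = 1 := hρ (by rw [h2, map_one])
    have h4 := congrArg φ.symm h3
    rwa [MulEquiv.symm_apply_apply, map_one] at h4
  have hgen' := hgen R₁ hstab
  -- bad set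
  have hW₁ : derivative ψ₁ * ψ₂ - ψ₁ * derivative ψ₂ ≠ 0 :=
    Special.Pool.Agent.Helper881.Cfd.Wr_ne_zero ψ₁ ψ₂ hcop (by omega)
  have hW₂ : derivative R₁.num * R₁.denom - R₁.num * derivative R₁.denom ≠ 0 :=
    Special.Pool.Agent.Helper881.Cfd.Wr_ne_zero _ _ hR₁cop hR₁deg
  set W₁ := derivative ψ₁ * ψ₂ - ψ₁ * derivative ψ₂ with hW₁def
  set W₂ := derivative R₁.num * R₁.denom - R₁.num * derivative R₁.denom with hW₂def
  set B : Finset ℂ := W₁.roots.toFinset ∪ W₂.roots.toFinset ∪ R₁.denom.roots.toFinset with hB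
  set κ := ψ₁.natDegree with hκdef
  set d := rdeg R₁ with hd
  set C₀ := 40 * (κ + d) with hC₀
  set n := 2 * κ + 6 * C₀ + 2 * d + 20 + N with hn
  have hn2 : 2 ≤ n := by omega
  obtain ⟨α, β, hα, hβ, hz, hinj⟩ := Generic.generic_params ψ₁ ψ₂ R₁.num R₁.denom hcop hR₁cop hlt
    hR₁deg (by rw [RatFunc.num_div_denom]; exact hgen') n hn2 B
  set f : RatFunc ℂ := ψ ^ n + algebraMap ℂ (RatFunc ℂ) α * ψ ^ (n - 1) +
    algebraMap ℂ (RatFunc ℂ) β with hf
  have hB' : ∀ z, z ∉ B → W₁.eval z ≠ 0 ∧ W₂.eval z ≠ 0 ∧ R₁.denom.eval z ≠ 0 := by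
    intro z hzB
    rw [hB, Finset.mem_union, Finset.mem_union, Multiset.mem_toFinset, Multiset.mem_toFinset,
      Multiset.mem_toFinset, mem_roots hW₁, mem_roots hW₂, mem_roots (RatFunc.denom_ne_zero _)] at hzB
    push Not at hzB
    exact ⟨hzB.1.1, hzB.1.2, hzB.2⟩
  obtain ⟨Z, hZcard, hZroot, hZf⟩ := simple_zeros ψ₁ ψ₂ hcop hlt n hn2 α β
    (fun z h0 => ⟨(hB' z (hz z h0).1).1, (hz z h0).2⟩) f hf
  replace hZcard : Z.card = n * κ := hZcard
  set H := halley D f R₁ with hH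
  have hZtriple : ∀ z ∈ Z, D (D f) / D f - 2 * D f / f - D (D R₁) / D R₁ ≠ 0 ∧
      H.denom.eval z ≠ 0 ∧
      (X - C z) ^ 3 ∣ H.num - C (R₁.num.eval z / R₁.denom.eval z) * H.denom := by
    intro z hzZ
    obtain ⟨h1, h2, h3⟩ := hZf z hzZ
    have h4 := hB' z (hz z (hZroot z hzZ)).1
    exact Triple.halley_triple D hD f R₁ z h1 h2 h3 h4.2.2 h4.2.1
  have hvinj : ∀ a ∈ Z, ∀ b ∈ Z,
      R₁.num.eval a / R₁.denom.eval a = R₁.num.eval b / R₁.denom.eval b → a = b := by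
    intro a ha b hb hab
    have ha' := (hB' a (hz a (hZroot a ha)).1).2.2
    have hb' := (hB' b (hz b (hZroot b hb)).1).2.2
    rw [div_eq_div_iff ha' hb'] at hab
    exact hinj a b (hZroot a ha) (hZroot b hb) hab
  have hnκ : n ≤ n * κ := Nat.le_mul_of_pos_right n hκ
  have hZbig : n ≤ Z.card := by rw [hZcard]; exact hnκ
  have hcopH := RatFunc.isCoprime_num_denom H
  have hHdeg : 1 ≤ rdeg H := by
    by_contra hcon
    have hcon' : max H.num.natDegree H.denom.natDegree = 0 := by unfold rdeg at hcon; omega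
    have h1 : ∀ z ∈ Z, H.num - C (R₁.num.eval z / R₁.denom.eval z) * H.denom = 0 := by
      intro z hzZ
      by_contra hne
      have h2 := natDegree_le_of_dvd (hZtriple z hzZ).2.2 hne
      rw [natDegree_pow, natDegree_X_sub_C] at h2
      have h3 := natDegree_sub_le H.num (C (R₁.num.eval z / R₁.denom.eval z) * H.denom)
      have h4 := natDegree_C_mul_le (R₁.num.eval z / R₁.denom.eval z) H.denom
      omega
    obtain ⟨a, ha, b, hb, hab⟩ := Finset.one_lt_card.1 (show 1 < Z.card by omega)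
    apply hab
    apply hvinj a ha b hb
    have h5 := h1 a ha
    have h6 := h1 b hb
    have h7 : C (R₁.num.eval a / R₁.denom.eval a) * H.denom =
        C (R₁.num.eval b / R₁.denom.eval b) * H.denom := by
      linear_combination h6 - h5
    exact C_injective (mul_right_cancel₀ (RatFunc.denom_ne_zero H) h7)
  obtain ⟨Z', hZ'Z, hgood, hcount⟩ := good_count H.num H.denom hcopH hHdeg Z
    (fun z => R₁.num.eval z / R₁.denom.eval z)
    (fun a ha b hb hab => hvinj a ha b hb hab) (fun a ha => (hZtriple a ha).2.2)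
  have hψnc : ∀ c : ℂ, ψ ≠ algebraMap ℂ (RatFunc ℂ) c := by
    intro c hc
    have h1 : ∃ c, ψ = RatFunc.C c := ⟨c, hc⟩
    rw [RatFunc.eq_C_iff] at h1
    unfold rdeg at hψdeg
    omega
  have hp : rdeg H ≤ n * κ + C₀ := by
    have := Degree.halley_degree D hD ψ R₁ n hn2 α β hψnc
    rw [hψdeg] at this
    exact this
  have hrd : max H.num.natDegree H.denom.natDegree = rdeg H := rfl
  rw [hrd] at hcount
  have hZ'le : Z'.card ≤ Z.card := Finset.card_le_card hZ'Z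
  have hplow : n * κ ≤ rdeg H := by omega
  have hZ'big : n * κ ≤ Z'.card + 2 * C₀ := by omega
  -- nonvanishing facts
  obtain ⟨z₀, hz₀⟩ : Z.Nonempty := Finset.card_pos.1 (by omega)
  have hL := (hZtriple z₀ hz₀).1
  have hDR₁ : D R₁ ≠ 0 := deriv_ne D hD R₁ hR₁deg
  have hf0 : f ≠ 0 := by
    intro h0
    have := (hZf z₀ hz₀).2.2
    rw [h0] at this
    simp at this
  have hDf : D f ≠ 0 := by
    apply deriv_ne D hD
    by_contra hcon
    have h1 : max f.num.natDegree f.denom.natDegree = 0 := by unfold rdeg at hcon; omega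
    have h2 : f.num.natDegree = 0 := by omega
    have := (hZf z₀ hz₀).2.2
    apply this
    rw [natDegree_eq_zero.1 h2 |>.choose_spec.symm, derivative_C, eval_zero]
  obtain ⟨R, hR⟩ := Hom.exists_end H hHdeg
  refine ⟨R, ?_, ?_, ?_, ?_, ?_, ?_, ?_⟩
  · rw [hR]; omega
  · rw [hR]; omega
  · -- H1
    intro k g
    have h1 : (ρ k).toAlgHom.comp R = R.comp (ρ (φ k)).toAlgHom := by
      apply Hom.hom_ext
      show ρ k (R RatFunc.X) = R (ρ (φ k) RatFunc.X)
      obtain ⟨a, b, c, e, hdet, hden, hX⟩ := Pgl.aut_moebius (ρ (φ k))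
      rw [hom_moebius R _ a b c e hX, hR]
      have h2 : (ρ k).toAlgHom R₁ = (algebraMap ℂ (RatFunc ℂ) a * R₁ + algebraMap ℂ (RatFunc ℂ) b) /
          (algebraMap ℂ (RatFunc ℂ) c * R₁ + algebraMap ℂ (RatFunc ℂ) e) := by
        show ρ k R₁ = _
        rw [hR₁, hτ, hom_moebius τ _ a b c e hX]
      have h3 : (ρ k).toAlgHom f = f := by
        show ρ k f = f
        rw [hf, map_add, map_add, map_mul, map_pow, map_pow, hfix k, AlgEquiv.commutes,
          AlgEquiv.commutes]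
      exact Halley.halley_equivariant D hD (ρ k).toAlgHom f R₁ a b c e hdet hf0 hDf hDR₁ hL h3 h2
    exact DFunLike.congr_fun h1 g
  · -- H2
    intro A A' h
    rw [hR] at h
    exact cancel_of_good H Z' (by omega) hgood A A' h
  · -- H3
    intro A B' S hS h
    rw [hR] at h ⊢
    have h15 : 15 ≤ Z'.card := by omega
    exact Left.left_factor H Z' hgood (3 * C₀) (by rw [hrd]; omega) (by rw [hrd]; omega) h15 A B' S
      hS h
  · -- H4
    intro μ ν hμ hν h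
    obtain ⟨m, hm⟩ := Hom.moebius_of_deg_one μ hμ
    obtain ⟨a, b, c, e, hdet, hden, hX⟩ := Pgl.aut_moebius m
    rw [hm, hom_moebius R _ a b c e hX, hR] at h
    have h1 := symmetry_transfer H R₁ Z
      (fun z hzZ => ⟨(hZtriple z hzZ).2.1, (hB' z (hz z (hZroot z hzZ)).1).2.2,
        (hZtriple z hzZ).2.2⟩) hvinj C₀ (by rw [hrd, hZcard]; exact hp)
      (show C₀ + 2 * d + 4 ≤ Z.card by omega) hR₁deg ν hν a b c e hdet h.symm
    obtain ⟨c', d', hc', h2⟩ := Halley.halley_rigid D hD ν f R₁ a b c e hdet hf0 hDf hDR₁ hL h1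
      h.symm (moebius_denom_ne H hHdeg a b c e hdet)
    have h3 := psi_rigid ψ (show 1 ≤ rdeg ψ by omega) n (show 2 * rdeg ψ + 3 ≤ n by omega) α β hα hβ
      ν hν c' d' hc' h2
    exact hgal ν h3
  · refine ⟨Z', by omega, ?_⟩
    rw [hR]
    exact hgood

end Pool.Agent.Y947.GP
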