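import Pool.Agent.Helper881.CenHom

/-!
From substitution homomorphisms to rational functions.
-/

set_option autoImplicit false

open Polynomial

namespace Pool.Agent.Y947.GP

open Pool.Agent.Helper881.Gp Pool.Agent.Helper881.Cen Pool.Agent.Helper881.Cen.Hom

/-- the Moebius transformations commuting with `P` -/
def AutP (P : RatFunc ℂ) : Set (RatFunc ℂ) := {μ | μ ∈ Centralizer P ∧ deg μ = 1}

/-- `q` induces an isomorphism of `G_P = C(P)/∼_P` onto `G` which maps `Aut(P)` one-to-one onto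
the subgroup `K`. -/
def Realizes (P : RatFunc ℂ) (G : Type) [Group G] (K : Subgroup G) : Prop :=
  ∃ q : RatFunc ℂ → G,
    (∀ Q₁ ∈ Centralizer P, ∀ Q₂ ∈ Centralizer P, q (comp Q₁ Q₂) = q Q₁ * q Q₂) ∧
    (∀ g : G, ∃ Q ∈ Centralizer P, q Q = g) ∧
    (∀ Q₁ ∈ Centralizer P, ∀ Q₂ ∈ Centralizer P, q Q₁ = q Q₂ ↔ Sim P Q₁ Q₂) ∧
    Set.BijOn q (AutP P) (K : Set G)

/-- `R ∈ C(P)` and `C(P)` consists of the functions `R^{∘ j} ∘ μ` with `j ≥ 0`, `μ ∈ Aut(P)`. -/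
def GeneratedBy (P R : RatFunc ℂ) : Prop :=
  R ∈ Centralizer P ∧
    Centralizer P = {Q | ∃ μ ∈ AutP P, ∃ j : ℕ, Q = comp (iter R j) μ}

theorem mem_cent (π σ : RatFunc ℂ →ₐ[ℂ] RatFunc ℂ) :
    σ RatFunc.X ∈ Centralizer (π RatFunc.X) ↔ σ * π = π * σ := by
  unfold Centralizer
  rw [Set.mem_setOf_eq, comm_iff]
  exact ⟨fun h => h.2, fun h => ⟨one_le_deg σ, h⟩⟩

theorem translate (π R : RatFunc ℂ →ₐ[ℂ] RatFunc ℂ) (G : Type) [Group G] (K : Subgroup G)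
    (hRπ : R * π = π * R)
    (hgen : ∀ σ : RatFunc ℂ →ₐ[ℂ] RatFunc ℂ, σ * π = π * σ →
      ∃ (μ : RatFunc ℂ →ₐ[ℂ] RatFunc ℂ) (j : ℕ), μ * π = π * μ ∧ rdeg (μ RatFunc.X) = 1 ∧
        σ = μ * R ^ j)
    (q : (RatFunc ℂ →ₐ[ℂ] RatFunc ℂ) → G)
    (h1 : ∀ σ τ : RatFunc ℂ →ₐ[ℂ] RatFunc ℂ, σ * π = π * σ → τ * π = π * τ →
      q (σ * τ) = q σ * q τ)
    (h2 : ∀ g : G, ∃ σ : RatFunc ℂ →ₐ[ℂ] RatFunc ℂ, σ * π = π * σ ∧ q σ = g)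
    (h3 : ∀ σ τ : RatFunc ℂ →ₐ[ℂ] RatFunc ℂ, σ * π = π * σ → τ * π = π * τ →
      (q σ = q τ ↔ ∃ l₁ l₂ : ℕ, π ^ l₁ * σ = π ^ l₂ * τ))
    (h4 : ∀ μ : RatFunc ℂ →ₐ[ℂ] RatFunc ℂ, μ * π = π * μ → rdeg (μ RatFunc.X) = 1 → q μ ∈ K)
    (h5 : ∀ k : K, ∃ μ : RatFunc ℂ →ₐ[ℂ] RatFunc ℂ, μ * π = π * μ ∧ rdeg (μ RatFunc.X) = 1 ∧
      q μ = k)
    (h6 : ∀ μ ν : RatFunc ℂ →ₐ[ℂ] RatFunc ℂ, μ * π = π * μ → ν * π = π * ν →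
      rdeg (μ RatFunc.X) = 1 → rdeg (ν RatFunc.X) = 1 → q μ = q ν → μ = ν) :
    GeneratedBy (π RatFunc.X) (R RatFunc.X) ∧ Realizes (π RatFunc.X) G K := by
  classical
  have hmem := mem_cent π
  refine ⟨⟨(hmem R).2 hRπ, ?_⟩, ?_⟩
  · apply Set.eq_of_subset_of_subset
    · intro Q hQ
      obtain ⟨σ, rfl⟩ := exists_end Q hQ.1
      obtain ⟨μ, j, hμ, hμ1, hσ⟩ := hgen σ ((hmem σ).1 hQ)
      refine ⟨μ RatFunc.X, ⟨(hmem μ).2 hμ, hμ1⟩, j, ?_⟩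
      rw [iter_hom, comp_hom, hσ]
      rfl
    · rintro Q ⟨μ, ⟨hμ, hμ1⟩, j, rfl⟩
      obtain ⟨m, rfl⟩ := exists_end μ hμ.1
      rw [iter_hom, comp_hom]
      have hc : (m * R ^ j) * π = π * (m * R ^ j) := by
        have c1 : Commute m π := (hmem m).1 hμ
        have c2 : Commute (R ^ j) π := (show Commute R π from hRπ).pow_left j
        exact c1.mul_left c2
      exact (hmem (m * R ^ j)).2 hc
  let E : RatFunc ℂ → (RatFunc ℂ →ₐ[ℂ] RatFunc ℂ) := fun x =>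
    if hx : 1 ≤ deg x then (exists_end x hx).choose else 1
  have hE : ∀ x, 1 ≤ deg x → E x RatFunc.X = x := by
    intro x hx
    simp only [E, dif_pos hx]
    exact (exists_end x hx).choose_spec
  have hE' : ∀ σ : RatFunc ℂ →ₐ[ℂ] RatFunc ℂ, E (σ RatFunc.X) = σ := by
    intro σ
    exact hom_ext _ _ (hE _ (one_le_deg σ))
  refine ⟨fun x => (q (E x))⁻¹, ?_, ?_, ?_, ?_, ?_, ?_⟩
  · intro Q₁ hQ₁ Q₂ hQ₂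
    obtain ⟨σ, rfl⟩ := exists_end Q₁ hQ₁.1
    obtain ⟨τ, rfl⟩ := exists_end Q₂ hQ₂.1
    show (q (E (comp (σ RatFunc.X) (τ RatFunc.X))))⁻¹ =
      (q (E (σ RatFunc.X)))⁻¹ * (q (E (τ RatFunc.X)))⁻¹
    rw [hE', hE', comp_hom]
    have : E (τ (σ RatFunc.X)) = τ * σ := hE' (τ * σ)
    rw [this, h1 τ σ ((hmem τ).1 hQ₂) ((hmem σ).1 hQ₁), mul_inv_rev]
  · intro g
    obtain ⟨σ, hσ, hq⟩ := h2 g⁻¹
    refine ⟨σ RatFunc.X, (hmem σ).2 hσ, ?_⟩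
    show (q (E (σ RatFunc.X)))⁻¹ = g
    rw [hE', hq, inv_inv]
  · intro Q₁ hQ₁ Q₂ hQ₂
    obtain ⟨σ, rfl⟩ := exists_end Q₁ hQ₁.1
    obtain ⟨τ, rfl⟩ := exists_end Q₂ hQ₂.1
    show (q (E (σ RatFunc.X)))⁻¹ = (q (E (τ RatFunc.X)))⁻¹ ↔ _
    rw [hE', hE', inv_inj, h3 _ _ ((hmem σ).1 hQ₁) ((hmem τ).1 hQ₂), sim_iff]
  · rintro x ⟨hx, hx1⟩
    obtain ⟨σ, rfl⟩ := exists_end x hx.1
    show (q (E (σ RatFunc.X)))⁻¹ ∈ K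
    rw [hE']
    exact K.inv_mem (h4 σ ((hmem σ).1 hx) hx1)
  · rintro x ⟨hx, hx1⟩ y ⟨hy, hy1⟩ hxy
    obtain ⟨σ, rfl⟩ := exists_end x hx.1
    obtain ⟨τ, rfl⟩ := exists_end y hy.1
    have h : (q (E (σ RatFunc.X)))⁻¹ = (q (E (τ RatFunc.X)))⁻¹ := hxy
    rw [hE', hE', inv_inj] at h
    rw [h6 σ τ ((hmem σ).1 hx) ((hmem τ).1 hy) hx1 hy1 h]
  · intro k hk
    obtain ⟨μ, hμ, hμ1, hq⟩ := h5 ⟨k⁻¹, K.inv_mem hk⟩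
    refine ⟨μ RatFunc.X, ⟨(hmem μ).2 hμ, hμ1⟩, ?_⟩
    show (q (E (μ RatFunc.X)))⁻¹ = k
    rw [hE', hq, inv_inv]

end Pool.Agent.Y947.GP
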