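import Pool.Agent.Y947.GP.Ex
import Pool.Agent.Y947.GP.Re
import Pool.Agent.Y947.GP.Tr
import Pool.Agent.Helper881.CenMain

set_option autoImplicit false

open Polynomial

namespace Pool.Agent.Y947.GP

open Pool.Agent.Helper881.Gp Pool.Agent.Helper881.Cen
open Pool.Agent.Helper881.Cen.Exists Pool.Agent.Helper881.Cen.Crit

theorem realization_full (G : Type) [Group G] [Finite G] (K : Subgroup G) [K.Normal]
    (hcyc : IsCyclic (G ⧸ K)) (f : K →* Matrix.ProjGenLinGroup (Fin 2) ℂ)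
    (hf : Function.Injective f) (N : ℕ) :
    ∃ P R : RatFunc ℂ, N ≤ deg R ∧ 2 ≤ deg R ∧ 2 ≤ deg P ∧ deg P = deg R ^ K.index ∧
      ¬ IsSpecial P ∧ GeneratedBy P R ∧ Realizes P G K := by
  classical
  obtain ⟨e⟩ := Pgl.pgl_equiv
  set ρ : K →* (RatFunc ℂ ≃ₐ[ℂ] RatFunc ℂ) := e.toMonoidHom.comp f with hρdef
  have hρ : Function.Injective ρ := fun x y hxy => hf (e.injective hxy)
  obtain ⟨x, hx⟩ := hcyc.exists_generator
  obtain ⟨r, rfl⟩ := QuotientGroup.mk_surjective x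
  have hr : ∀ g : G, ∃ (k : K) (j : ℕ), g = k * r ^ j := by
    intro g
    have h1 := hx (g : G ⧸ K)
    rw [← mem_powers_iff_mem_zpowers] at h1
    obtain ⟨j, hj⟩ := h1
    have h2 : ((r ^ j : G) : G ⧸ K) = (g : G ⧸ K) := hj
    have h3 : g * (r ^ j)⁻¹ ∈ K := by
      have h4 : ((g * (r ^ j)⁻¹ : G) : G ⧸ K) = 1 := by
        rw [QuotientGroup.mk_mul, QuotientGroup.mk_inv, ← h2, mul_inv_cancel]
      exact (QuotientGroup.eq_one_iff _).1 h4
    exact ⟨⟨g * (r ^ j)⁻¹, h3⟩, j, by simp⟩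
  set φ : K ≃* K := (MulAut.conjNormal r⁻¹ : MulAut K) with hφdef
  have hφ : ∀ k : K, ((φ k : K) : G) = r⁻¹ * k * r := by
    intro k
    have := MulAut.conjNormal_apply r⁻¹ k
    rw [inv_inv] at this
    exact this
  obtain ⟨R, hN, hR, H1, H2, H3, H4, Z, hZ, hgood⟩ := exists_R_large N K ρ hρ φ
  obtain ⟨P, V, hPV, hP2, hdeg, hcomm, hgen, q, h1, h2, h3, h4, h5, h6⟩ :=
    realize_end_full G K r hr ρ hρ φ hφ R hR H1 H2 H3 H4
  obtain ⟨ha, hb⟩ := translate P R G K hcomm hgen q h1 h2 h3 h4 h5 h6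
  refine ⟨P RatFunc.X, R RatFunc.X, hN, hR, hP2, hdeg, ?_, ha, hb⟩
  apply Hom.nonspecial_of_hom
  obtain ⟨T, hT, hcv⟩ := many_critical_values (R RatFunc.X) Z hZ hgood V
  rw [← hPV] at hcv
  exact Special.nonspecial_of_critical_values P hP2 T hT hcv

end Pool.Agent.Y947.GP
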